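import Mathlib

/-! Point sets in general position with only `n^(2+ε)` distinct circumradii. -/

namespace Pool.Agent.Results.MP_cd3201_co.Radii

open Finset

/-- no three points on a line and no four points on a circle -/
def GP (P : Finset ℂ) : Prop :=
  (∀ a ∈ P, ∀ b ∈ P, ∀ c ∈ P, a ≠ b → a ≠ c → b ≠ c → ¬ Collinear ℝ ({a, b, c} : Set ℂ)) ∧
  ∀ a ∈ P, ∀ b ∈ P, ∀ c ∈ P, ∀ e ∈ P, a ≠ b → a ≠ c → a ≠ e → b ≠ c → b ≠ e → c ≠ e →
    ¬ EuclideanGeometry.Cospherical ({a, b, c, e} : Set ℂ)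

/-- the radii of the circles through three points of `P` -/
def radii (P : Finset ℂ) : Set ℝ :=
  {r | ∃ a ∈ P, ∃ b ∈ P, ∃ c ∈ P, a ≠ b ∧ a ≠ c ∧ b ≠ c ∧
    ∃ o : ℂ, dist a o = r ∧ dist b o = r ∧ dist c o = r}

def D2 {R : Type*} [CommRing R] (px py qx qy : R) : R := px * qy - py * qx

def D3 {R : Type*} [CommRing R] (px py qx qy rx ry : R) : R :=
  (px ^ 2 + py ^ 2) * (qx * ry - qy * rx) - (qx ^ 2 + qy ^ 2) * (px * ry - py * rx) +
    (rx ^ 2 + ry ^ 2) * (px * qy - py * qx)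

theorem col_D2 {a b c : ℂ} (h : Collinear ℝ ({a, b, c} : Set ℂ)) :
    D2 (b - a).re (b - a).im (c - a).re (c - a).im = 0 := by
  obtain ⟨v, hv⟩ := (collinear_iff_of_mem (p₀ := a) (by simp)).1 h
  obtain ⟨s, hs⟩ := hv b (by simp)
  obtain ⟨t, ht⟩ := hv c (by simp)
  rw [hs, ht]
  simp [D2]
  ring

theorem dist_sq {a o : ℂ} {r : ℝ} (h : dist a o = r) :
    (a.re - o.re) ^ 2 + (a.im - o.im) ^ 2 = r ^ 2 := by
  rw [← h, Complex.dist_eq_re_im, Real.sq_sqrt (by positivity)]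

theorem cos_D3 {a b c e : ℂ} (h : EuclideanGeometry.Cospherical ({a, b, c, e} : Set ℂ)) :
    D3 (b - a).re (b - a).im (c - a).re (c - a).im (e - a).re (e - a).im = 0 := by
  obtain ⟨o, r, h⟩ := h
  have ha := dist_sq (h a (by simp))
  have hb := dist_sq (h b (by simp))
  have hc := dist_sq (h c (by simp))
  have he := dist_sq (h e (by simp))
  simp only [D3, Complex.sub_re, Complex.sub_im]
  linear_combination
    ((c.re - a.re) * (e.im - a.im) - (c.im - a.im) * (e.re - a.re)) * (hb - ha) -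
    ((b.re - a.re) * (e.im - a.im) - (b.im - a.im) * (e.re - a.re)) * (hc - ha) +
    ((b.re - a.re) * (c.im - a.im) - (b.im - a.im) * (c.re - a.re)) * (he - ha)

/-- circumradius of the triangle `0, p, q` -/
noncomputable def rho (p q : ℂ) : ℝ :=
  √((((p.re ^ 2 + p.im ^ 2) * q.im - (q.re ^ 2 + q.im ^ 2) * p.im) /
      (2 * D2 p.re p.im q.re q.im)) ^ 2 +
    (((q.re ^ 2 + q.im ^ 2) * p.re - (p.re ^ 2 + p.im ^ 2) * q.re) /
      (2 * D2 p.re p.im q.re q.im)) ^ 2)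

theorem rho_eq {a b c o : ℂ} {r : ℝ} (hD : D2 (b - a).re (b - a).im (c - a).re (c - a).im ≠ 0)
    (ha : dist a o = r) (hb : dist b o = r) (hc : dist c o = r) : rho (b - a) (c - a) = r := by
  have hr : 0 ≤ r := ha ▸ dist_nonneg
  have ha := dist_sq ha
  have hb := dist_sq hb
  have hc := dist_sq hc
  have h1 : (((b - a).re ^ 2 + (b - a).im ^ 2) * (c - a).im -
      ((c - a).re ^ 2 + (c - a).im ^ 2) * (b - a).im) /
      (2 * D2 (b - a).re (b - a).im (c - a).re (c - a).im) = o.re - a.re := by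
    rw [div_eq_iff (mul_ne_zero two_ne_zero hD)]
    simp only [D2, Complex.sub_re, Complex.sub_im]
    linear_combination (c.im - a.im) * (hb - ha) - (b.im - a.im) * (hc - ha)
  have h2 : (((c - a).re ^ 2 + (c - a).im ^ 2) * (b - a).re -
      ((b - a).re ^ 2 + (b - a).im ^ 2) * (c - a).re) /
      (2 * D2 (b - a).re (b - a).im (c - a).re (c - a).im) = o.im - a.im := by
    rw [div_eq_iff (mul_ne_zero two_ne_zero hD)]
    simp only [D2, Complex.sub_re, Complex.sub_im]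
    linear_combination (b.re - a.re) * (hc - ha) - (c.re - a.re) * (hb - ha)
  rw [rho, h1, h2, show (o.re - a.re) ^ 2 + (o.im - a.im) ^ 2 = r ^ 2 by linear_combination ha,
    Real.sqrt_sq hr]

variable {ι : Type} [Fintype ι]

def dt (v q : ι → ℝ) : ℝ := ∑ i, v i * q i

def dl (q : ι → ℝ) : Module.Dual ℝ (ι → ℝ) where
  toFun v := dt v q
  map_add' _ _ := by simp [dt, add_mul, sum_add_distrib]
  map_smul' _ _ := by simp [dt, mul_sum, mul_assoc]

theorem dt_sub (v p q : ι → ℝ) : dt v (p - q) = dt v p - dt v q := by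
  simp [dt, mul_sub, sum_sub_distrib]

theorem dt_self {p : ι → ℝ} (h : dt p p = 0) : p = 0 := by
  ext i
  have := (sum_eq_zero_iff_of_nonneg fun j _ => mul_self_nonneg (p j)).1 h i (mem_univ i)
  simpa using this

def Ind (p q : ι → ℝ) : Prop := ∀ s t : ℝ, s • p + t • q = 0 → s = 0 ∧ t = 0

omit [Fintype ι] in
theorem Ind.symm {p q : ι → ℝ} (h : Ind p q) : Ind q p :=
  fun s t e => (h t s (by rw [add_comm]; exact e)).symm

omit [Fintype ι] in
theorem Ind.ne {p q : ι → ℝ} (h : Ind p q) : p ≠ 0 :=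
  fun e => one_ne_zero (h 1 0 (by simp [e])).1

theorem Ind.perp {p q : ι → ℝ} (h : Ind p q) : ∃ v ∈ LinearMap.ker (dl p), dl q v ≠ 0 := by
  have e1 : ∀ w, dl w (dt p p • q - dt q p • p) = dt p p * dt q w - dt q p * dt p w := by
    intro w; simp only [map_sub, map_smul, smul_eq_mul]; rfl
  have e2 : dl p (dt p p • q - dt q p • p) = 0 := by rw [e1]; ring
  refine ⟨_, e2, fun e3 => ?_⟩
  have e4 : dt (dt p p • q - dt q p • p) (dt p p • q - dt q p • p) = 0 := by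
    have : ∀ v : ι → ℝ, dt v (dt p p • q - dt q p • p) = dt p p * dl q v - dt q p * dl p v := by
      intro v
      simp only [dl, dt, LinearMap.coe_mk, AddHom.coe_mk, Pi.sub_apply, Pi.smul_apply,
        smul_eq_mul]
      rw [mul_sum univ (fun i => v i * q i), mul_sum univ (fun i => v i * p i), ← sum_sub_distrib]
      exact sum_congr rfl fun i _ => by ring
    rw [this, e2, e3]; ring
  have e5 := dt_self e4
  have := (h (-dt q p) (dt p p) (by rw [← e5]; module)).2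
  exact h.ne (dt_self this)

theorem conc1 {p q r : ι → ℝ} (h1 : Ind p q) (h2 : Ind p r) (h3 : Ind p (r - q)) :
    ∃ u v : ι → ℝ, D3 (dt u p) (dt v p) (dt u q) (dt v q) (dt u r) (dt v r) ≠ 0 := by
  obtain ⟨v, hv, h⟩ := Module.Dual.exists_forall_mem_ne_zero_of_forall_exists
    (LinearMap.ker (dl p)) ![dl q, dl r, dl (r - q)] fun i => by
      fin_cases i
      exacts [h1.perp, h2.perp, h3.perp]
  have hv : dt v p = 0 := hv
  have a0 : dt v q ≠ 0 := h 0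
  have a1 : dt v r ≠ 0 := h 1
  have a2 : dt v (r - q) ≠ 0 := h 2
  rw [dt_sub] at a2
  have a3 : dt p p ≠ 0 := fun e => h1.ne (dt_self e)
  have e2 : ∀ w, dt ((2 : ℝ) • v) w = 2 * dt v w := fun w => (dl w).map_smul 2 v
  by_contra hc
  push Not at hc
  have b1 := hc p v
  have b2 := hc p ((2 : ℝ) • v)
  simp only [e2, hv, D3] at b1 b2
  have : 6 * dt p p * (dt v q * dt v r * (dt v r - dt v q)) = 0 := by
    linear_combination b2 - 2 * b1
  simp [a0, a1, a2, a3] at this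

theorem conc {p q r : ι → ℝ} (h1 : Ind p q) (h2 : Ind p r) (h3 : Ind q r) :
    ∃ u v : ι → ℝ, D3 (dt u p) (dt v p) (dt u q) (dt v q) (dt u r) (dt v r) ≠ 0 := by
  by_cases c1 : Ind p (r - q)
  · exact conc1 h1 h2 c1
  by_cases c2 : Ind q (r - p)
  · obtain ⟨u, v, h⟩ := conc1 h1.symm h3 c2
    exact ⟨u, v, fun e => h (by simp only [D3] at e ⊢; linear_combination -e)⟩
  by_cases c3 : Ind r (q - p)
  · obtain ⟨u, v, h⟩ := conc1 h2.symm h3.symm c3
    exact ⟨u, v, fun e => h (by simp only [D3] at e ⊢; linear_combination e)⟩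
  exfalso
  simp only [Ind, not_forall] at c1 c2 c3
  obtain ⟨s1, t1, e1, n1⟩ := c1
  obtain ⟨s2, t2, e2, n2⟩ := c2
  obtain ⟨s3, t3, e3, n3⟩ := c3
  have f1 : t1 ≠ 0 := fun e => n1 ⟨(h1 s1 0 (by simpa [e] using e1)).1, e⟩
  have f2 : t2 ≠ 0 := fun e => n2 ⟨(h1 0 s2 (by simpa [e] using e2)).2, e⟩
  have g1 := h1 (-(t1 * t2) - t2 * s1) (t1 * s2 + t1 * t2) (by
    linear_combination (norm := module) t1 • e2 - t2 • e1)
  have g2 := h1 (-(t1 * t3) - s3 * s1) (t1 * t3 + s3 * t1) (by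
    linear_combination (norm := module) t1 • e3 - s3 • e1)
  have k1 : s1 = -t1 := mul_left_cancel₀ f2 (by linarith [g1.1])
  have k2 : s3 = -t3 := mul_left_cancel₀ f1 (by linarith [g2.2])
  have k3 : t3 = 0 := mul_left_cancel₀ f1 (by have := g2.1; rw [k1, k2] at this; linarith)
  exact n3 ⟨by rw [k2, k3, neg_zero], k3⟩

theorem generic {σ : Type} {s : Set (MvPolynomial σ ℝ)} (hs : s.Finite)
    (h : ∀ F ∈ s, ∃ w, MvPolynomial.eval w F ≠ 0) : ∃ w, ∀ F ∈ s, MvPolynomial.eval w F ≠ 0 := by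
  have h1 : ∏ F ∈ hs.toFinset, F ≠ 0 := prod_ne_zero_iff.2 fun F hF e => by
    obtain ⟨w, hw⟩ := h F (hs.mem_toFinset.1 hF)
    exact hw (by rw [e, map_zero])
  by_contra hc
  push Not at hc
  refine h1 (MvPolynomial.funext fun w => ?_)
  obtain ⟨F, hF, hw⟩ := hc w
  rw [map_prod, map_zero]
  exact prod_eq_zero (hs.mem_toFinset.2 hF) hw


/-- linear form in the first block of variables -/
noncomputable def Xl (a : ι → ℝ) : MvPolynomial (ι ⊕ ι) ℝ :=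
  ∑ i, MvPolynomial.X (Sum.inl i) * MvPolynomial.C (a i)

/-- linear form in the second block of variables -/
noncomputable def Yl (a : ι → ℝ) : MvPolynomial (ι ⊕ ι) ℝ :=
  ∑ i, MvPolynomial.X (Sum.inr i) * MvPolynomial.C (a i)

theorem ev_X (w : ι ⊕ ι → ℝ) (a : ι → ℝ) :
    MvPolynomial.eval w (Xl a) = dt (fun i => w (Sum.inl i)) a := by simp [Xl, dt]

theorem ev_Y (w : ι ⊕ ι → ℝ) (a : ι → ℝ) :
    MvPolynomial.eval w (Yl a) = dt (fun i => w (Sum.inr i)) a := by simp [Yl, dt]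

theorem proj {T : Type} [Finite T] (L : T → ι → ℝ) (h2 : ∀ x y, x ≠ y → L y - L x ≠ 0)
    (h3 : ∀ x y z, x ≠ y → x ≠ z → y ≠ z → Ind (L y - L x) (L z - L x)) :
    ∃ u v : ι → ℝ, (∀ x y, x ≠ y → dt u (L y - L x) ≠ 0) ∧
      (∀ x y z, x ≠ y → x ≠ z → y ≠ z → D2 (dt u (L y - L x)) (dt v (L y - L x))
        (dt u (L z - L x)) (dt v (L z - L x)) ≠ 0) ∧
      ∀ x y z e, x ≠ y → x ≠ z → x ≠ e → y ≠ z → y ≠ e → z ≠ e →
        D3 (dt u (L y - L x)) (dt v (L y - L x)) (dt u (L z - L x)) (dt v (L z - L x))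
          (dt u (L e - L x)) (dt v (L e - L x)) ≠ 0 := by
  let f2 : {p : T × T // p.1 ≠ p.2} → MvPolynomial (ι ⊕ ι) ℝ := fun p => Xl (L p.1.2 - L p.1.1)
  let f3 : {p : T × T × T // p.1 ≠ p.2.1 ∧ p.1 ≠ p.2.2 ∧ p.2.1 ≠ p.2.2} →
      MvPolynomial (ι ⊕ ι) ℝ := fun p => D2 (Xl (L p.1.2.1 - L p.1.1)) (Yl (L p.1.2.1 - L p.1.1))
        (Xl (L p.1.2.2 - L p.1.1)) (Yl (L p.1.2.2 - L p.1.1))
  let f4 : {p : T × T × T × T // p.1 ≠ p.2.1 ∧ p.1 ≠ p.2.2.1 ∧ p.1 ≠ p.2.2.2 ∧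
      p.2.1 ≠ p.2.2.1 ∧ p.2.1 ≠ p.2.2.2 ∧ p.2.2.1 ≠ p.2.2.2} → MvPolynomial (ι ⊕ ι) ℝ :=
    fun p => D3 (Xl (L p.1.2.1 - L p.1.1)) (Yl (L p.1.2.1 - L p.1.1))
      (Xl (L p.1.2.2.1 - L p.1.1)) (Yl (L p.1.2.2.1 - L p.1.1))
      (Xl (L p.1.2.2.2 - L p.1.1)) (Yl (L p.1.2.2.2 - L p.1.1))
  have m2 : ∀ (w : ι ⊕ ι → ℝ) a b c e, MvPolynomial.eval w (D2 a b c e) =
      D2 (MvPolynomial.eval w a) (MvPolynomial.eval w b) (MvPolynomial.eval w c)
        (MvPolynomial.eval w e) := fun _ _ _ _ _ => by simp [D2]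
  have m3 : ∀ (w : ι ⊕ ι → ℝ) a b c e f g, MvPolynomial.eval w (D3 a b c e f g) =
      D3 (MvPolynomial.eval w a) (MvPolynomial.eval w b) (MvPolynomial.eval w c)
        (MvPolynomial.eval w e) (MvPolynomial.eval w f) (MvPolynomial.eval w g) :=
    fun _ _ _ _ _ _ _ => by simp [D3]
  obtain ⟨w, hw⟩ := generic (s := Set.range f2 ∪ (Set.range f3 ∪ Set.range f4))
    ((Set.finite_range _).union ((Set.finite_range _).union (Set.finite_range _))) (by
    rintro _ (⟨⟨⟨x, y⟩, h⟩, rfl⟩ | ⟨⟨⟨x, y, z⟩, a, b, c⟩, rfl⟩ |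
      ⟨⟨⟨x, y, z, e⟩, a, b, c, a', b', c'⟩, rfl⟩)
    · refine ⟨Sum.elim (L y - L x) 0, ?_⟩
      simp only [f2, ev_X, Sum.elim_inl]
      exact fun e => h2 x y h (dt_self e)
    · obtain ⟨v, hv, hv'⟩ := (h3 x y z a b c).perp
      have hv : dt v (L y - L x) = 0 := hv
      have hv' : dt v (L z - L x) ≠ 0 := hv'
      refine ⟨Sum.elim (L y - L x) v, ?_⟩
      simp only [f3, m2, ev_X, ev_Y, Sum.elim_inl, Sum.elim_inr]
      change D2 _ (dt v _) _ (dt v _) ≠ 0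
      rw [hv, D2, zero_mul, sub_zero]
      exact mul_ne_zero (fun e => h2 x y a (dt_self e)) hv'
    · have i3 : Ind (L z - L x) (L e - L x) := h3 x z e b c c'
      obtain ⟨u, v, h⟩ := conc (h3 x y z a b a') (h3 x y e a c b') i3
      refine ⟨Sum.elim u v, ?_⟩
      simpa only [f4, m3, ev_X, ev_Y, Sum.elim_inl, Sum.elim_inr] using h)
  refine ⟨fun i => w (Sum.inl i), fun i => w (Sum.inr i), fun x y h => ?_,
    fun x y z a b c => ?_, fun x y z e a b c a' b' c' => ?_⟩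
  · simpa only [f2, ev_X] using hw _ (Or.inl ⟨⟨(x, y), h⟩, rfl⟩)
  · simpa only [f3, m2, ev_X, ev_Y] using hw _ (Or.inr (Or.inl ⟨⟨(x, y, z), a, b, c⟩, rfl⟩))
  · simpa only [f4, m3, ev_X, ev_Y] using
      hw _ (Or.inr (Or.inr ⟨⟨(x, y, z, e), a, b, c, a', b', c'⟩, rfl⟩))

/-- lift to the paraboloid -/
def LZ {d m : ℕ} (x : Fin d → Fin m) : Option (Fin d) → ℤ
  | none => ∑ i, ((x i : ℕ) : ℤ) ^ 2
  | some i => ((x i : ℕ) : ℤ)

/-- real lift to the paraboloid -/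
def LR {d m : ℕ} (x : Fin d → Fin m) : Option (Fin d) → ℝ := fun i => (LZ x i : ℝ)

theorem coord_ne {d m : ℕ} {x y : Fin d → Fin m} (h : x ≠ y) :
    ∃ i, ((y i : ℕ) : ℝ) - ((x i : ℕ) : ℝ) ≠ 0 := by
  obtain ⟨i, hi⟩ := Function.ne_iff.1 h
  refine ⟨i, sub_ne_zero.2 fun e => hi (Fin.ext ?_)⟩
  exact_mod_cast e.symm

theorem LR_ne {d m : ℕ} (x y : Fin d → Fin m) (h : x ≠ y) : LR y - LR x ≠ 0 := by
  obtain ⟨i, hi⟩ := coord_ne h
  exact fun e => hi (by simpa [LR, LZ] using congrFun e (some i))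

theorem LR_ind {d m : ℕ} (x y z : Fin d → Fin m) (h1 : x ≠ y) (h2 : x ≠ z) (h3 : y ≠ z) :
    Ind (LR y - LR x) (LR z - LR x) := by
  intro s t e
  have c : ∀ i, s * (((y i : ℕ) : ℝ) - (x i : ℕ)) + t * (((z i : ℕ) : ℝ) - (x i : ℕ)) = 0 :=
    fun i => by simpa [LR, LZ] using congrFun e (some i)
  have c0 : s * (∑ i, ((y i : ℕ) : ℝ) ^ 2 - ∑ i, ((x i : ℕ) : ℝ) ^ 2) +
      t * (∑ i, ((z i : ℕ) : ℝ) ^ 2 - ∑ i, ((x i : ℕ) : ℝ) ^ 2) = 0 := by
    simpa [LR, LZ] using congrFun e none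
  have c1 : ∑ i, t * (t + s) * (((z i : ℕ) : ℝ) - (x i : ℕ)) ^ 2 = 0 := by
    rw [← mul_zero s, ← c0, ← sum_sub_distrib, ← sum_sub_distrib, mul_sum, mul_sum,
      ← sum_add_distrib, mul_sum]
    refine sum_congr rfl fun i _ => ?_
    linear_combination (t * (((z i : ℕ) : ℝ) - (x i : ℕ)) - s * (((y i : ℕ) : ℝ) - (x i : ℕ)) -
      2 * s * (x i : ℕ)) * c i
  rw [← mul_sum] at c1
  obtain ⟨i2, hi2⟩ := coord_ne h2
  have hB : ∑ i, (((z i : ℕ) : ℝ) - (x i : ℕ)) ^ 2 ≠ 0 := fun e =>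
    hi2 (pow_eq_zero_iff two_ne_zero |>.1
      ((sum_eq_zero_iff_of_nonneg fun j _ => sq_nonneg _).1 e i2 (mem_univ _)))
  rcases mul_eq_zero.1 ((mul_eq_zero.1 c1).resolve_right hB) with h | h
  · obtain ⟨i, hi⟩ := coord_ne h1
    have := c i
    rw [h, zero_mul, add_zero] at this
    exact ⟨(mul_eq_zero.1 this).resolve_right hi, h⟩
  · obtain ⟨i, hi⟩ := coord_ne h3
    have : t * (((z i : ℕ) : ℝ) - (y i : ℕ)) = 0 := by linear_combination c i -
      (((y i : ℕ) : ℝ) - (x i : ℕ)) * h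
    have ht := (mul_eq_zero.1 this).resolve_right hi
    exact ⟨by linarith, ht⟩

/-- the box containing all differences of lifted points -/
noncomputable def box (d m : ℕ) : Finset (Option (Fin d) → ℤ) :=
  Fintype.piFinset fun i => Icc (-(i.elim (d * m ^ 2) fun _ => m : ℕ) : ℤ)
    (i.elim (d * m ^ 2) fun _ => m : ℕ)

theorem box_card {d m : ℕ} (hd : 1 ≤ d) (hm : 1 ≤ m) :
    (box d m).card ≤ 3 ^ (d + 1) * d * m ^ (d + 2) := by
  have e : ∀ k : ℕ, (Icc (-(k : ℤ)) k).card = 2 * k + 1 := fun k => by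
    rw [Int.card_Icc]; omega
  rw [box, Fintype.card_piFinset, Fintype.prod_option]
  simp only [e, Option.elim_none, Option.elim_some, prod_const, card_univ, Fintype.card_fin]
  have h1 : 1 ≤ d * m ^ 2 := Nat.mul_pos hd (pow_pos hm 2)
  calc (2 * (d * m ^ 2) + 1) * (2 * m + 1) ^ d ≤ (3 * (d * m ^ 2)) * (3 * m) ^ d := by
        gcongr <;> omega
    _ = _ := by ring

theorem diff_mem {d m : ℕ} (x y : Fin d → Fin m) : LZ y - LZ x ∈ box d m := by
  have b : ∀ x : Fin d → Fin m, 0 ≤ LZ x none ∧ LZ x none ≤ (d * m ^ 2 : ℕ) := fun x => by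
    refine ⟨sum_nonneg fun _ _ => sq_nonneg _, ?_⟩
    refine (sum_le_card_nsmul univ _ ((m : ℤ) ^ 2) fun i _ => ?_).trans (by simp)
    have : ((x i : ℕ) : ℤ) ≤ m := by exact_mod_cast (x i).2.le
    gcongr
  refine Fintype.mem_piFinset.2 fun i => mem_Icc.2 ?_
  cases i with
  | none =>
    have := b x; have := b y
    simp only [Pi.sub_apply, Option.elim_none]
    omega
  | some i =>
    have := (x i).2; have := (y i).2
    simp only [Pi.sub_apply, Option.elim_some, LZ]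
    omega

theorem main {d m n : ℕ} (hn : n ≤ m ^ d) : ∃ P : Finset ℂ, P.card = n ∧ GP P ∧
    (radii P).Finite ∧ (radii P).ncard ≤ (box d m).card ^ 2 := by
  classical
  obtain ⟨u, v, h2, h3, h4⟩ := proj (LR (d := d) (m := m)) LR_ne LR_ind
  obtain ⟨S, -, hS⟩ := exists_subset_card_eq (s := (univ : Finset (Fin d → Fin m))) (n := n)
    (by simpa using hn)
  let φ : (Option (Fin d) → ℝ) → ℂ := fun a => ⟨dt u a, dt v a⟩
  have hφ : ∀ a b, φ a - φ b = φ (a - b) := fun a b => by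
    apply Complex.ext <;> simp [φ, dt_sub]
  have hinj : Function.Injective fun x : Fin d → Fin m => φ (LR x) := by
    intro x y e
    by_contra h
    have : φ (LR y - LR x) = 0 := by rw [← hφ]; exact sub_eq_zero.2 e.symm
    exact h2 x y h (congrArg Complex.re this)
  have hsub : radii (S.image fun x => φ (LR x)) ⊆ ((box d m ×ˢ box d m).image fun δ =>
      rho (φ fun i => (δ.1 i : ℝ)) (φ fun i => (δ.2 i : ℝ)) : Finset ℝ) := by
    rintro r ⟨a, ha, b, hb, c, hc, n1, n2, n3, o, o1, o2, o3⟩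
    obtain ⟨x, -, rfl⟩ := mem_image.1 ha
    obtain ⟨y, -, rfl⟩ := mem_image.1 hb
    obtain ⟨z, -, rfl⟩ := mem_image.1 hc
    refine mem_coe.2 (mem_image.2 ⟨(LZ y - LZ x, LZ z - LZ x),
      mem_product.2 ⟨diff_mem x y, diff_mem x z⟩, ?_⟩)
    have e : ∀ w : Fin d → Fin m, (fun i => ((LZ w - LZ x) i : ℝ)) = LR w - LR x := fun w => by
      ext i; simp [LR]
    simp only [e, ← hφ]
    refine rho_eq ?_ o1 o2 o3
    rw [hφ, hφ]
    exact h3 x y z (ne_of_apply_ne (fun x : Fin d → Fin m => φ (LR x)) n1) (ne_of_apply_ne (fun x : Fin d → Fin m => φ (LR x)) n2) (ne_of_apply_ne (fun x : Fin d → Fin m => φ (LR x)) n3)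
  refine ⟨S.image fun x => φ (LR x), by rw [card_image_of_injective _ hinj, hS], ⟨?_, ?_⟩,
    (finite_toSet _).subset hsub, ?_⟩
  · intro a ha b hb c hc n1 n2 n3 h
    obtain ⟨x, -, rfl⟩ := mem_image.1 ha
    obtain ⟨y, -, rfl⟩ := mem_image.1 hb
    obtain ⟨z, -, rfl⟩ := mem_image.1 hc
    have := col_D2 h
    rw [hφ, hφ] at this
    exact h3 x y z (ne_of_apply_ne (fun x : Fin d → Fin m => φ (LR x)) n1) (ne_of_apply_ne (fun x : Fin d → Fin m => φ (LR x)) n2) (ne_of_apply_ne (fun x : Fin d → Fin m => φ (LR x)) n3) this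
  · intro a ha b hb c hc e he n1 n2 n3 n4 n5 n6 h
    obtain ⟨x, -, rfl⟩ := mem_image.1 ha
    obtain ⟨y, -, rfl⟩ := mem_image.1 hb
    obtain ⟨z, -, rfl⟩ := mem_image.1 hc
    obtain ⟨w, -, rfl⟩ := mem_image.1 he
    have := cos_D3 h
    rw [hφ, hφ, hφ] at this
    exact h4 x y z w (ne_of_apply_ne (fun x : Fin d → Fin m => φ (LR x)) n1) (ne_of_apply_ne (fun x : Fin d → Fin m => φ (LR x)) n2) (ne_of_apply_ne (fun x : Fin d → Fin m => φ (LR x)) n3)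
      (ne_of_apply_ne (fun x : Fin d → Fin m => φ (LR x)) n4) (ne_of_apply_ne (fun x : Fin d → Fin m => φ (LR x)) n5) (ne_of_apply_ne (fun x : Fin d → Fin m => φ (LR x)) n6) this
  · refine (Set.ncard_le_ncard hsub (finite_toSet _)).trans ?_
    rw [Set.ncard_coe_finset]
    exact card_image_le.trans (by rw [card_product, sq])

theorem result (ε : ℝ) (hε : 0 < ε) : ∃ C : ℝ, ∀ n : ℕ, 1 ≤ n → ∃ P : Finset ℂ,
    P.card = n ∧ GP P ∧ (radii P).Finite ∧ ((radii P).ncard : ℝ) ≤ C * (n : ℝ) ^ (2 + ε) := by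
  obtain ⟨d, hd⟩ := exists_nat_gt (4 / ε)
  have hd0 : (0 : ℝ) < d := lt_trans (by positivity) hd
  have hd1 : 1 ≤ d := by exact_mod_cast hd0
  refine ⟨(3 ^ (d + 1) * d * 2 ^ (d + 2)) ^ 2, fun n hn => ?_⟩
  have hn1 : (1 : ℝ) ≤ n := by exact_mod_cast hn
  set t : ℝ := (n : ℝ) ^ ((d : ℝ)⁻¹) with ht
  have ht1 : 1 ≤ t := Real.one_le_rpow hn1 (by positivity)
  have htd : t ^ d = n := Real.rpow_inv_natCast_pow (by positivity) (by omega)
  have hm1 : t ≤ ⌈t⌉₊ := Nat.le_ceil t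
  have hm2 : (⌈t⌉₊ : ℝ) ≤ 2 * t := by linarith [Nat.ceil_lt_add_one (by linarith : 0 ≤ t)]
  have hm0 : 1 ≤ ⌈t⌉₊ := by exact_mod_cast ht1.trans hm1
  have hnm : n ≤ ⌈t⌉₊ ^ d := by
    have : (n : ℝ) ≤ (⌈t⌉₊ : ℝ) ^ d := by rw [← htd]; gcongr
    exact_mod_cast this
  obtain ⟨P, h1, h2, h3, h4⟩ := main hnm
  refine ⟨P, h1, h2, h3, ?_⟩
  have h5 : ((box d ⌈t⌉₊).card : ℝ) ≤ 3 ^ (d + 1) * d * (⌈t⌉₊ : ℝ) ^ (d + 2) := by
    exact_mod_cast box_card hd1 hm0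
  have h6 : (t ^ (d + 2)) ^ 2 ≤ (n : ℝ) ^ (2 + ε) := by
    rw [← pow_mul, ht, ← Real.rpow_natCast, ← Real.rpow_mul (by positivity)]
    refine Real.rpow_le_rpow_of_exponent_le hn1 ?_
    rw [div_lt_iff₀ hε] at hd
    rw [inv_mul_le_iff₀ hd0]
    push_cast
    linarith
  calc ((radii P).ncard : ℝ) ≤ ((box d ⌈t⌉₊).card : ℝ) ^ 2 := by exact_mod_cast h4
    _ ≤ (3 ^ (d + 1) * d * (2 * t) ^ (d + 2)) ^ 2 := by
        gcongr
        exact h5.trans (by gcongr)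
    _ = (3 ^ (d + 1) * d * 2 ^ (d + 2)) ^ 2 * (t ^ (d + 2)) ^ 2 := by ring
    _ ≤ _ := by gcongr

end Pool.Agent.Results.MP_cd3201_co.Radii
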